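import Mathlib

set_option autoImplicit false

open Filter Topology Finset
open scoped NNReal Classical

namespace Pool.Agent.Results.MP_54d8ad_lc.Simple

/-- `|A ∩ n|`. -/
noncomputable def cnt (A : Set ℕ) (n : ℕ) : ℕ := ((range n).filter (· ∈ A)).card

/-- Weights defining Erdős–Ulam ideals. -/
def IsWeight (h : ℕ → ℝ) : Prop :=
  (∀ i, 0 ≤ h i) ∧ Tendsto (fun n => ∑ i ∈ range n, h i) atTop atTop ∧
    Tendsto (fun n => h n / ∑ i ∈ range (n + 1), h i) atTop (𝓝 0)

/-- The Erdős–Ulam ideal `EU_h`. -/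
def EU (h : ℕ → ℝ) : Set (Set ℕ) :=
  {A | Tendsto (fun n => (∑ i ∈ (range n).filter (· ∈ A), h i) / ∑ i ∈ range n, h i) atTop (𝓝 0)}

/-- The class `H`. -/
def InH (g : ℕ → ℕ) : Prop :=
  Monotone g ∧ Tendsto g atTop atTop ∧ ¬ Tendsto (fun n : ℕ => (n : ℝ) / g n) atTop (𝓝 0)

/-- The simple density ideal `Z_g`. -/
def Z (g : ℕ → ℕ) : Set (Set ℕ) := {A | Tendsto (fun n => (cnt A n : ℝ) / g n) atTop (𝓝 0)}

/-- Modulus functions. -/
def IsModulus (f : ℝ≥0 → ℝ≥0) : Prop :=
  (∀ x, f x = 0 ↔ x = 0) ∧ (∀ x y, f (x + y) ≤ f x + f y) ∧ Monotone f ∧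
    ContinuousWithinAt f (Set.Ici 0) 0

/-- The ideal `Z_g(f)`. -/
def Zf (g : ℕ → ℕ) (f : ℝ≥0 → ℝ≥0) : Set (Set ℕ) :=
  {A | Tendsto (fun n => (f (cnt A n) : ℝ) / f (g n)) atTop (𝓝 0)}

lemma tend {u v : ℕ → ℝ} (hu : ∀ n, 0 ≤ u n) (hv : ∀ᶠ n in atTop, 0 < v n) :
    Tendsto (fun n => u n / v n) atTop (𝓝 0) ↔ ∀ ε > 0, ∀ᶠ n in atTop, u n ≤ ε * v n := by
  refine ⟨fun h ε hε => (hv.and (h.eventually (gt_mem_nhds hε))).mono fun n hn =>
    ((div_lt_iff₀ hn.1).1 hn.2).le, fun h => tendsto_order.2 ⟨fun a ha => hv.mono fun n hn =>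
      ha.trans_le (div_nonneg (hu n) hn.le), fun a ha => (hv.and (h (a / 2) (half_pos ha))).mono
        fun n hn => (div_lt_iff₀ hn.1).2 (by nlinarith [hn.1, hn.2])⟩⟩

lemma cnt_mono (A : Set ℕ) : Monotone (cnt A) := fun _ _ h =>
  card_le_card (filter_subset_filter _ (range_subset_range.2 h))

lemma cnt_le (A : Set ℕ) (n : ℕ) : cnt A n ≤ n := (card_filter_le _ _).trans (card_range n).le

lemma big {h : ℕ → ℝ} (hh : IsWeight h) {φ : ℕ → ℕ} (hφ : StrictMono φ) :
    ∃ A ∈ EU h, ∀ k, φ k / (k + 1) ≤ cnt A (φ k) := by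
  have ex : ∀ j, ∃ k, j ≤ φ k := fun j => ⟨j, hφ.le_apply⟩
  obtain ⟨b, b0, hb⟩ : ∃ b : ℕ → ℕ, b 0 = 0 ∧ ∀ j, b (j + 1) = b j + (Nat.find (ex j) + 1) :=
    ⟨fun j => Nat.rec 0 (fun j b => b + (Nat.find (ex j) + 1)) j, rfl, fun _ => rfl⟩
  have bm : StrictMono b := strictMono_nat_of_lt_succ fun j => by rw [hb]; omega
  choose s hs hs' using fun j => exists_min_image (Ico (b j) (b (j + 1))) h
    (nonempty_Ico.2 (bm (lt_add_one j)))
  simp only [mem_Ico] at hs
  have sm : StrictMono s := strictMono_nat_of_lt_succ fun j => (hs j).2.trans_le (hs _).1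
  let H := fun n => ∑ i ∈ range n, h i
  let W := fun n => ∑ i ∈ (range n).filter (· ∈ Set.range s), h i
  have Hm : Monotone H := fun _ _ hn =>
    sum_le_sum_of_subset_of_nonneg (range_subset_range.2 hn) fun i _ _ => hh.1 i
  have hW : ∀ j n, b j ≤ n → n ≤ b (j + 1) → W n = W (b j) + if s j < n then h (s j) else 0 := by
    intro j n h1 h2
    simp only [W, sum_filter]
    rw [← sum_range_add_sum_Ico _ h1, add_right_inj, sum_congr rfl (g := fun i =>
      if s j = i then h i else 0), sum_ite_eq]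
    · simp [(hs j).1]
    · intro i hi
      refine if_congr ⟨fun ⟨l, hl⟩ => ?_, fun h => ⟨j, h⟩⟩ rfl rfl
      rw [mem_Ico, ← hl] at hi
      have := bm.lt_iff_lt.1 (hi.1.trans_lt (hs l).2)
      have := bm.lt_iff_lt.1 ((hs l).1.trans_lt (hi.2.trans_le h2))
      rw [← hl, show j = l by omega]
  have Hp : ∀ᶠ n in atTop, 0 < H n := hh.2.1.eventually_gt_atTop 0
  refine ⟨Set.range s, (tend (fun n => sum_nonneg fun i _ => hh.1 i) Hp).2 fun ε hε => ?_,
    fun k => ?_⟩
  · obtain ⟨L, hL⟩ := exists_nat_gt (3 / ε)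
    obtain ⟨i0, hi0⟩ := eventually_atTop.1 ((tend hh.1 ((tendsto_add_atTop_nat 1).eventually Hp)).1
      hh.2.2 (ε / 3) (by positivity))
    set j0 := φ L + 1 + i0
    have h1 : ∀ j ≥ j0, W (b j) ≤ H (b j0) + ε / 3 * H (b j) := fun j hj => by
      induction j, hj using Nat.le_induction with
      | base => exact le_add_of_le_of_nonneg (sum_le_sum_of_subset_of_nonneg (filter_subset _ _)
          fun i _ _ => hh.1 i) (mul_nonneg (by positivity) (sum_nonneg fun i _ => hh.1 i))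
      | succ j hj ih =>
        have h2 := card_nsmul_le_sum _ _ _ (hs' j)
        have h3 : L ≤ Nat.find (ex j) := not_lt.1 fun h => by
          have := (Nat.find_spec (ex j)).trans (hφ h).le
          omega
        have h4 := sum_range_add_sum_Ico h (bm (lt_add_one j)).le
        rw [Nat.card_Ico, hb, Nat.add_sub_cancel_left, nsmul_eq_mul, ← hb] at h2
        have h5 : (L : ℝ) ≤ (Nat.find (ex j) + 1 : ℕ) := by exact_mod_cast h3.trans (Nat.le_succ _)
        rw [hW j _ (bm (lt_add_one j)).le le_rfl, if_pos (hs j).2]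
        rw [div_lt_iff₀ hε] at hL
        have h6 := hh.1 (s j)
        have : 3 * h (s j) ≤ ε * ∑ i ∈ Ico (b j) (b (j + 1)), h i := by
          nlinarith [mul_le_mul_of_nonneg_right h5 h6]
        simp only [H] at ih ⊢
        nlinarith
    filter_upwards [eventually_ge_atTop (b j0), hh.2.1.eventually_ge_atTop (3 / ε * H (b j0))]
      with n hn hn'
    have ex' : ∃ j, n < b (j + 1) := ⟨n, bm.le_apply⟩
    have a1 := Nat.find_spec ex'
    have a2 : j0 ≤ Nat.find ex' := Nat.le_of_lt_succ (bm.lt_iff_lt.1 (hn.trans_lt a1))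
    have a3 : b (Nat.find ex') ≤ n := by
      obtain ⟨j, hj⟩ : ∃ j, Nat.find ex' = j + 1 := ⟨Nat.find ex' - 1, by omega⟩
      exact hj ▸ not_lt.1 (Nat.find_min ex' (by omega))
    have a4 := h1 _ a2
    have a5 := Hm a3
    have a6 : H (b j0) ≤ ε / 3 * H n := by
      rw [div_mul_eq_mul_div, div_le_iff₀ hε] at hn'
      simp only [H] at hn' ⊢; linarith
    have a7 : (if s (Nat.find ex') < n then h (s (Nat.find ex')) else 0) ≤ ε / 3 * H n := by
      split_ifs with h'
      · exact (hi0 _ (by have := sm.le_apply (x := Nat.find ex'); omega)).trans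
          (mul_le_mul_of_nonneg_left (Hm h') (by positivity))
      · exact mul_nonneg (by positivity) (sum_nonneg fun i _ => hh.1 i)
    have := hW _ n a3 a1.le
    change W n ≤ ε * H n
    nlinarith
  · have : ∀ j ≤ φ k / (k + 1), b j ≤ j * (k + 1) := fun j hj => by
      induction j with
      | zero => simp [b0]
      | succ j ih =>
        have := Nat.find_min' (ex j) (m := k) (by have := Nat.div_le_self (φ k) (k + 1); omega)
        have := ih (by omega)
        rw [hb, add_mul]; omega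
    refine (card_range _).ge.trans (card_le_card_of_injOn s (fun j hj => ?_) sm.injective.injOn)
    simp only [coe_range, Set.mem_Iio, coe_filter, mem_range] at hj ⊢
    exact ⟨(hs j).2.trans_le ((bm.monotone hj).trans ((this _ le_rfl).trans
      (Nat.div_mul_le_self _ _))), j, rfl⟩

theorem result (h : ℕ → ℝ) (hh : IsWeight h) (g : ℕ → ℕ) (hg : InH g) (f : ℝ≥0 → ℝ≥0)
    (hf : IsModulus f) (_ : ¬ BddAbove (Set.range f)) (he : EU h = Zf g f) :
    ∃ g', InH g' ∧ EU h = Z g' := by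
  let F : ℕ → ℝ := fun k => f k
  have F0 : ∀ k, 0 ≤ F k := fun k => (f k).2
  have Fp : ∀ k, 0 < k → 0 < F k := fun k hk =>
    NNReal.coe_pos.2 (pos_iff_ne_zero.2 fun h => hk.ne' (by exact_mod_cast (hf.1 _).1 h))
  have Fm : Monotone F := fun _ _ h => NNReal.coe_le_coe.2 (hf.2.2.1 (by exact_mod_cast h))
  have Fs : ∀ a m : ℕ, F (m * a) ≤ m * F a := fun a m => by
    induction m with
    | zero => simp [F, (hf.1 0).2 rfl]
    | succ m ih =>
      have : F (m * a + a) ≤ F (m * a) + F a := by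
        simp only [F, Nat.cast_add]; exact NNReal.coe_le_coe.2 (hf.2.1 _ _)
      rw [Nat.succ_mul]; push_cast; linarith
  have gp : ∀ᶠ n in atTop, 0 < F (g n) := (hg.2.1.eventually_gt_atTop 0).mono fun n => Fp _
  have hZ : ∀ A, A ∈ EU h ↔ ∀ ε > 0, ∀ᶠ n in atTop, F (cnt A n) ≤ ε * F (g n) := fun A =>
    he ▸ tend (fun n => F0 _) gp
  have key : ∀ ε > 0, ∃ N, ∀ᶠ n in atTop, F (n / (N + 1)) ≤ ε * F (g n) := fun ε hε => by
    by_contra hn
    simp only [not_exists, not_eventually, not_le] at hn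
    obtain ⟨φ, h1, h2⟩ := extraction_forall_of_frequently hn
    obtain ⟨A, h3, h4⟩ := big hh h1
    obtain ⟨k, hk⟩ := (h1.tendsto_atTop.eventually ((hZ A).1 h3 ε hε)).exists
    exact (h2 k).not_ge ((Fm (h4 k)).trans hk)
  let G : ℕ → ℕ := fun m => max m ⌈m * F (g m) / F m⌉₊
  let g' : ℕ → ℕ := fun n => sInf (G '' Set.Ici n)
  have g1 : ∀ n, ∃ m ≥ n, G m = g' n := fun n => Nat.sInf_mem (Set.nonempty_Ici.image G)
  have g2 : ∀ n m, n ≤ m → g' n ≤ G m := fun n m h => Nat.sInf_le ⟨m, h, rfl⟩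
  have g3 : ∀ n, n ≤ g' n := fun n => let ⟨m, h1, h2⟩ := g1 n; h2 ▸ h1.trans (le_max_left _ _)
  have hE : EU h = Z g' := Set.ext fun A => by
    rw [hZ, Z, Set.mem_setOf_eq, tend (fun n => Nat.cast_nonneg _)
      ((eventually_gt_atTop 0).mono fun n hn => by exact_mod_cast hn.trans_le (g3 n))]
    refine ⟨fun H ε hε => ?_, fun H ε hε => ?_⟩
    · obtain ⟨n0, h0⟩ := eventually_atTop.1 (H (ε / 2) (half_pos hε))
      filter_upwards [eventually_ge_atTop (n0 + 1)] with n hn
      obtain ⟨m, h1, h2⟩ := g1 n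
      refine (Nat.cast_le.2 (cnt_mono A h1)).trans (h2 ▸ ?_)
      rcases (cnt A m).eq_zero_or_pos with h | h
      · rw [h, Nat.cast_zero]; positivity
      have a1 : m * F (g m) / F m ≤ G m := (Nat.le_ceil _).trans (Nat.cast_le.2 (le_max_right _ _))
      have a2 := Fp m (by omega)
      have a3 := (Fm (Nat.lt_div_mul_add (a := m) h).le).trans
        (add_one_mul (m / cnt A m) _ ▸ Fs (cnt A m) (m / cnt A m + 1))
      have a4 : ((m / cnt A m + 1 : ℕ) : ℝ) * cnt A m ≤ 2 * m := by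
        have := Nat.div_mul_le_self m (cnt A m)
        have := cnt_le A m
        exact_mod_cast (by nlinarith : (m / cnt A m + 1) * cnt A m ≤ 2 * m)
      have a5 := h0 m (by omega)
      have a6 : (0 : ℝ) ≤ cnt A m := Nat.cast_nonneg _
      rw [div_le_iff₀ a2] at a1
      refine le_of_mul_le_mul_right ?_ a2
      nlinarith [mul_le_mul_of_nonneg_left a3 a6, mul_le_mul_of_nonneg_right a4 (F0 (cnt A m)),
        mul_le_mul_of_nonneg_left a5 (show (0 : ℝ) ≤ m from Nat.cast_nonneg _),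
        mul_le_mul_of_nonneg_left a1 hε.le]
    · obtain ⟨N, hN⟩ := key ε hε
      filter_upwards [hN, H (min ε 1 / (2 * (N + 1))) (by positivity), eventually_gt_atTop 0]
        with n h1 h2 h3
      rcases le_total (F n) (ε * F (g n)) with h | h
      · exact (Fm (cnt_le A n)).trans h
      refine (Fm ((Nat.le_div_iff_mul_le N.succ_pos).2 ?_)).trans h1
      have a1 : (1 : ℝ) ≤ n := by exact_mod_cast h3
      have a2 := Fp n h3
      have a0 : 0 < min ε 1 := by positivity
      have a3 : min ε 1 * G n ≤ 2 * n := by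
        simp only [G, Nat.cast_max]
        rcases le_total (n : ℝ) ⌈n * F (g n) / F n⌉₊ with h' | h'
        · have h4 := Nat.ceil_lt_add_one (div_nonneg (mul_nonneg (by positivity : (0 : ℝ) ≤ n)
            (F0 (g n))) a2.le)
          have : ε * (n * F (g n) / F n) ≤ n := by
            rw [← mul_div_assoc, div_le_iff₀ a2]; nlinarith
          rw [max_eq_right h']
          nlinarith [min_le_left ε 1, min_le_right ε 1, div_nonneg (mul_nonneg
            (by positivity : (0 : ℝ) ≤ n) (F0 (g n))) a2.le]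
        · rw [max_eq_left h']; nlinarith [min_le_right ε 1]
      have a4 : (g' n : ℝ) ≤ G n := Nat.cast_le.2 (g2 n n le_rfl)
      rw [div_mul_eq_mul_div, le_div_iff₀ (by positivity)] at h2
      have : (cnt A n : ℝ) * (N + 1) ≤ n := by nlinarith
      exact_mod_cast this
  refine ⟨g', ⟨fun n m h => let ⟨k, h1, h2⟩ := g1 m; h2 ▸ g2 n k (h.trans h1),
    tendsto_atTop_mono g3 tendsto_id, fun h' => ?_⟩, hE⟩
  have : Set.univ ∈ EU h := hE ▸ (by simpa [Z, cnt] using h')
  have h2 := this.congr' ((hh.2.1.eventually_gt_atTop 0).mono fun n hn =>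
    show _ = (1 : ℝ) by simp [hn.ne'])
  simp at h2

end Pool.Agent.Results.MP_54d8ad_lc.Simple
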